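import Pool.Agent.H30.CV.Surv

/-!
# Survival functions of the Bass model are convex in each column: module Law
-/

set_option autoImplicit false

namespace Pool.Agent.H30.CV

open Pool.Agent.H78.Bass Finset

variable {M : ℕ}

/-- Jensen for the exponential -/
theorem exp_jensen {ι : Type*} (R : Finset ι) (om x : ι → ℝ) (hom : ∀ r ∈ R, 0 ≤ om r)
    (hom1 : ∑ r ∈ R, om r = 1) :
    Real.exp (∑ r ∈ R, om r * x r) ≤ ∑ r ∈ R, om r * Real.exp (x r) := by
  have := convexOn_exp.map_sum_le (t := R) (w := om) (p := x) hom hom1 (fun _ _ => Set.mem_univ _)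
  simpa [smul_eq_mul] using this

/-- (A): the probabilities of the sets without `j` -/
theorem law_jensen {ι : Type*} (R : Finset ι) (om : ι → ℝ) (hom : ∀ r ∈ R, 0 ≤ om r)
    (hom1 : ∑ r ∈ R, om r = 1) (p : Fin M → ℝ) (hp : ∀ j, 0 ≤ p j) (w : ι → Fin M → Fin M → ℝ)
    (v : Fin M → Fin M → ℝ) (hv : ∀ k i, 0 ≤ v k i) (j : Fin M)
    (hoff : ∀ r ∈ R, ∀ k i, i ≠ j → w r k i = v k i)
    (hmean : ∀ k, v k j = ∑ r ∈ R, om r * w r k j) :
    ∀ Y, j ∉ Y → ∀ l : Fin M → ℝ, ∀ t, 0 ≤ t →
      Real.exp (-∑ k, l k * v k j) * law p v t Y ≤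
        ∑ r ∈ R, om r * (Real.exp (-∑ k, l k * w r k j) * law p (w r) t Y) := by
  intro Y
  induction Y using Finset.strongInduction with
  | H Y ih =>
  intro hj l T hT
  set th : ℝ := ∑ i ∈ (Yᶜ).erase j, rate p v Y i + p j with hth
  have hjc : j ∈ Yᶜ := mem_compl.2 hj
  -- total rate out of `Y`
  have hrate : ∀ u : Fin M → Fin M → ℝ, (∀ k i, i ≠ j → u k i = v k i) →
      ∑ i ∈ Yᶜ, rate p u Y i = th + ∑ k ∈ Y, u k j := by
    intro u hu
    rw [← add_sum_erase _ _ hjc, hth]
    have : ∑ i ∈ (Yᶜ).erase j, rate p u Y i = ∑ i ∈ (Yᶜ).erase j, rate p v Y i := by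
      refine sum_congr rfl fun i hi => ?_
      unfold rate
      congr 1
      exact sum_congr rfl fun k _ => hu k i (ne_of_mem_erase hi)
    rw [this]
    unfold rate
    ring
  have hin : ∀ u : Fin M → Fin M → ℝ, (∀ k i, i ≠ j → u k i = v k i) → ∀ s,
      ∑ i ∈ Y, law p u s (Y.erase i) * rate p u (Y.erase i) i =
      ∑ i ∈ Y, rate p v (Y.erase i) i * law p u s (Y.erase i) := by
    intro u hu s
    refine sum_congr rfl fun i hi => ?_
    have hij : i ≠ j := fun h => hj (h ▸ hi)
    have : rate p u (Y.erase i) i = rate p v (Y.erase i) i := by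
      unfold rate
      congr 1
      exact sum_congr rfl fun k _ => hu k i hij
    rw [this]
    ring
  -- the weighted function of one network
  let g : (Fin M → Fin M → ℝ) → ℝ → ℝ := fun u s =>
    Real.exp (-∑ k, l k * u k j + (th * s - (T - s) * ∑ k ∈ Y, u k j)) * law p u s Y
  have hg : ∀ u : Fin M → Fin M → ℝ, (∀ k i, i ≠ j → u k i = v k i) → ∀ s,
      HasDerivAt (g u) (Real.exp (th * s) * ∑ i ∈ Y, rate p v (Y.erase i) i *
        (Real.exp (-∑ k, (l k + if k ∈ Y then T - s else 0) * u k j) *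
          law p u s (Y.erase i))) s := by
    intro u hu s
    have h1 : HasDerivAt (fun s : ℝ => -∑ k, l k * u k j + (th * s - (T - s) * ∑ k ∈ Y, u k j))
        (th + ∑ k ∈ Y, u k j) s := by
      have a := ((hasDerivAt_id s).const_mul th).sub
        (((hasDerivAt_id s).const_sub T).mul_const (∑ k ∈ Y, u k j))
      have b : HasDerivAt (fun s : ℝ => -∑ k, l k * u k j +
          (th * s - (T - s) * ∑ k ∈ Y, u k j)) (th * 1 - -1 * ∑ k ∈ Y, u k j) s :=
        a.const_add (-∑ k, l k * u k j)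
      exact b.congr_deriv (by ring)
    have h2 := h1.exp.mul (law_deriv p u s Y)
    have h3 : HasDerivAt (g u) _ s := h2
    convert h3 using 1
    rw [hin u hu s, hrate u hu]
    have e : ∑ k, (l k + if k ∈ Y then T - s else 0) * u k j =
        ∑ k, l k * u k j + (T - s) * ∑ k ∈ Y, u k j := by
      simp_rw [add_mul, ite_mul, zero_mul]
      rw [sum_add_distrib, sum_ite_mem, univ_inter, mul_sum]
    simp_rw [e]
    have e2 : Real.exp (th * s) * ∑ i ∈ Y, rate p v (Y.erase i) i *
        (Real.exp (-(∑ k, l k * u k j + (T - s) * ∑ k ∈ Y, u k j)) * law p u s (Y.erase i)) =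
        Real.exp (-∑ k, l k * u k j + (th * s - (T - s) * ∑ k ∈ Y, u k j)) *
          ∑ i ∈ Y, rate p v (Y.erase i) i * law p u s (Y.erase i) := by
      have e3 : Real.exp (-∑ k, l k * u k j + (th * s - (T - s) * ∑ k ∈ Y, u k j)) =
          Real.exp (th * s) * Real.exp (-(∑ k, l k * u k j + (T - s) * ∑ k ∈ Y, u k j)) := by
        rw [← Real.exp_add]
        congr 1
        ring
      have e4 : ∀ E : ℝ, ∑ i ∈ Y, rate p v (Y.erase i) i * (E * law p u s (Y.erase i)) =
          E * ∑ i ∈ Y, rate p v (Y.erase i) i * law p u s (Y.erase i) := by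
        intro E
        rw [mul_sum]
        refine sum_congr rfl fun i _ => by ring
      rw [e3, e4, mul_assoc]
    rw [e2]
    ring
  -- the difference is monotone
  let D : ℝ → ℝ := fun s => ∑ r ∈ R, om r * g (w r) s - g v s
  have hD : ∀ s, HasDerivAt D (∑ r ∈ R, om r * (Real.exp (th * s) * ∑ i ∈ Y,
      rate p v (Y.erase i) i * (Real.exp (-∑ k, (l k + if k ∈ Y then T - s else 0) * w r k j) *
        law p (w r) s (Y.erase i))) - Real.exp (th * s) * ∑ i ∈ Y,
      rate p v (Y.erase i) i * (Real.exp (-∑ k, (l k + if k ∈ Y then T - s else 0) * v k j) *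
        law p v s (Y.erase i))) s := by
    intro s
    exact (HasDerivAt.fun_sum fun r hr => (hg (w r) (hoff r hr) s).const_mul (om r)).sub
      (hg v (fun _ _ _ => rfl) s)
  have hmono : MonotoneOn D (Set.Icc 0 T) := by
    refine monotoneOn_of_deriv_nonneg (convex_Icc 0 T)
      (fun s _ => (hD s).continuousAt.continuousWithinAt)
      (fun s _ => (hD s).differentiableAt.differentiableWithinAt) ?_
    intro s hs
    rw [interior_Icc] at hs
    rw [(hD s).deriv]
    have e : ∑ r ∈ R, om r * (Real.exp (th * s) * ∑ i ∈ Y,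
      rate p v (Y.erase i) i * (Real.exp (-∑ k, (l k + if k ∈ Y then T - s else 0) * w r k j) *
        law p (w r) s (Y.erase i))) = Real.exp (th * s) * ∑ i ∈ Y, rate p v (Y.erase i) i *
        ∑ r ∈ R, om r * (Real.exp (-∑ k, (l k + if k ∈ Y then T - s else 0) * w r k j) *
        law p (w r) s (Y.erase i)) := by
      simp_rw [mul_sum]
      rw [sum_comm]
      refine sum_congr rfl fun i _ => sum_congr rfl fun r _ => by ring
    rw [e, ← mul_sub, ← sum_sub_distrib]
    refine mul_nonneg (Real.exp_pos _).le (sum_nonneg fun i hi => ?_)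
    rw [← mul_sub]
    have hr0 : 0 ≤ rate p v (Y.erase i) i := by
      unfold rate
      exact add_nonneg (hp i) (sum_nonneg fun k _ => hv k i)
    refine mul_nonneg hr0 (sub_nonneg.2 ?_)
    exact ih (Y.erase i) (erase_ssubset hi) (fun h => hj (mem_of_mem_erase h))
      (fun k => l k + if k ∈ Y then T - s else 0) s hs.1.le
  have h0 : 0 ≤ D 0 := by
    by_cases hY : Y = ∅
    · subst hY
      have e : ∀ u : Fin M → Fin M → ℝ, g u 0 = Real.exp (-∑ k, l k * u k j) := by
        intro u
        simp [g, law_zero]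
      simp only [D, e]
      have h1 := exp_jensen R om (fun r => -∑ k, l k * w r k j) hom hom1
      have h2 : ∑ r ∈ R, om r * (-∑ k, l k * w r k j) = -∑ k, l k * v k j := by
        simp_rw [hmean, mul_neg, sum_neg_distrib, mul_sum]
        rw [sum_comm]
        congr 1
        refine sum_congr rfl fun k _ => sum_congr rfl fun r _ => by ring
      rw [h2] at h1
      linarith
    · have e : ∀ u : Fin M → Fin M → ℝ, g u 0 = 0 := by
        intro u
        simp [g, law_zero, hY]
      simp [D, e]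
  have hT' := hmono (Set.left_mem_Icc.2 hT) (Set.right_mem_Icc.2 hT) hT
  have h1 : 0 ≤ D T := h0.trans hT'
  have e : ∀ u : Fin M → Fin M → ℝ, g u T = Real.exp (th * T) *
      (Real.exp (-∑ k, l k * u k j) * law p u T Y) := by
    intro u
    simp only [g, sub_self, zero_mul, sub_zero]
    rw [Real.exp_add]
    ring
  simp only [D, e] at h1
  have e' : ∑ r ∈ R, om r * (Real.exp (th * T) *
      (Real.exp (-∑ k, l k * w r k j) * law p (w r) T Y)) = Real.exp (th * T) *
      ∑ r ∈ R, om r * (Real.exp (-∑ k, l k * w r k j) * law p (w r) T Y) := by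
    rw [mul_sum]
    refine sum_congr rfl fun r _ => by ring
  rw [e', ← mul_sub] at h1
  have := nonneg_of_mul_nonneg_right h1 (Real.exp_pos _)
  linarith

/-- survival functions are convex in each column -/
theorem surv_jensen {ι : Type*} (R : Finset ι) (om : ι → ℝ) (hom : ∀ r ∈ R, 0 ≤ om r)
    (hom1 : ∑ r ∈ R, om r = 1) (p : Fin M → ℝ) (hp : ∀ j, 0 ≤ p j) (w : ι → Fin M → Fin M → ℝ)
    (v : Fin M → Fin M → ℝ) (hv : ∀ k i, 0 ≤ v k i) (j : Fin M)
    (hoff : ∀ r ∈ R, ∀ k i, i ≠ j → w r k i = v k i)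
    (hmean : ∀ k, v k j = ∑ r ∈ R, om r * w r k j) :
    ∀ Z, ∀ t, 0 ≤ t → surv p v t Z ≤ ∑ r ∈ R, om r * surv p (w r) t Z := by
  refine surv_jensen_of R om hom1 p w v hv j hoff ?_
  intro Z hZ t ht
  unfold surv ex
  simp_rw [mul_sum]
  rw [sum_comm]
  refine sum_le_sum fun Y _ => ?_
  by_cases hd : Disjoint Y Z
  · have hY : j ∉ Y := fun h => disjoint_left.1 hd h hZ
    have h1 := law_jensen R om hom hom1 p hp w v hv j hoff hmean Y hY (fun _ => 0) t ht
    simp only [zero_mul, sum_const_zero, neg_zero, Real.exp_zero, one_mul] at h1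
    simpa [hd] using h1
  · simp [hd]

end Pool.Agent.H30.CV
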