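import Pool.Agent.H30.CV.Law

/-!
# Random networks with independent columns: module Prod
-/

set_option autoImplicit false

namespace Pool.Agent.H30.CV

open Pool.Agent.H78.Bass Finset

variable {M : ℕ}

section product

variable {ι : Type*} [Fintype ι]

omit [Fintype ι] in
theorem prod_update (μ : Fin M → ι → ℝ) (j : Fin M) (σ : Fin M → ι) (a : ι) :
    (∏ i, μ i (Function.update σ j a i)) * μ j (σ j) = (∏ i, μ i (σ i)) * μ j a := by
  classical
  rw [← mul_prod_erase univ (fun i => μ i (Function.update σ j a i)) (mem_univ j),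
    ← mul_prod_erase univ (fun i => μ i (σ i)) (mem_univ j)]
  have : ∏ i ∈ univ.erase j, μ i (Function.update σ j a i) = ∏ i ∈ univ.erase j, μ i (σ i) := by
    refine prod_congr rfl fun i hi => ?_
    rw [Function.update_of_ne (ne_of_mem_erase hi)]
  simp only [this, Function.update_self]
  ring

/-- choosing again at `j` does not change the mean -/
theorem sum_update (μ : Fin M → ι → ℝ) (hμ1 : ∀ j, ∑ a, μ j a = 1) (j : Fin M)
    (G : (Fin M → ι) → ℝ) :
    ∑ σ : Fin M → ι, (∏ i, μ i (σ i)) * ∑ a, μ j a * G (Function.update σ j a) =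
      ∑ σ : Fin M → ι, (∏ i, μ i (σ i)) * G σ := by
  classical
  let e : (Fin M → ι) × ι ≃ (Fin M → ι) × ι :=
    { toFun := fun x => (Function.update x.1 j x.2, x.1 j)
      invFun := fun x => (Function.update x.1 j x.2, x.1 j)
      left_inv := fun x => by
        apply Prod.ext
        · simp
        · simp
      right_inv := fun x => by
        apply Prod.ext
        · simp
        · simp }
  have h1 : ∑ σ : Fin M → ι, (∏ i, μ i (σ i)) * ∑ a, μ j a * G (Function.update σ j a) =
      ∑ x : (Fin M → ι) × ι, (∏ i, μ i (x.1 i)) * μ j x.2 * G (Function.update x.1 j x.2) := by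
    rw [Fintype.sum_prod_type]
    refine sum_congr rfl fun σ _ => ?_
    rw [mul_sum]
    exact sum_congr rfl fun a _ => by ring
  rw [h1, ← Equiv.sum_comp e]
  have h2 : ∀ x : (Fin M → ι) × ι, (∏ i, μ i ((e x).1 i)) * μ j (e x).2 *
      G (Function.update (e x).1 j (e x).2) = (∏ i, μ i (x.1 i)) * G x.1 * μ j x.2 := by
    intro x
    have a : (∏ i, μ i ((e x).1 i)) * μ j (e x).2 = (∏ i, μ i (x.1 i)) * μ j x.2 :=
      prod_update μ j x.1 x.2
    have b : Function.update (e x).1 j (e x).2 = x.1 := by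
      simp [e]
    rw [a, b]
    ring
  simp_rw [h2]
  rw [Fintype.sum_prod_type]
  refine sum_congr rfl fun σ _ => ?_
  simp only
  rw [← mul_sum, hμ1, mul_one]

theorem sum_prod_one (μ : Fin M → ι → ℝ) (hμ1 : ∀ j, ∑ a, μ j a = 1) :
    ∑ σ : Fin M → ι, ∏ i, μ i (σ i) = 1 := by
  classical
  have h := Finset.prod_univ_sum (fun _ : Fin M => (univ : Finset ι)) μ
  rw [Fintype.piFinset_univ] at h
  rw [← h]
  simp [hμ1]

/-- Jensen's inequality column by column -/
theorem prod_jensen (μ : Fin M → ι → ℝ) (hμ0 : ∀ j a, 0 ≤ μ j a) (hμ1 : ∀ j, ∑ a, μ j a = 1)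
    (c : Fin M → ι → Fin M → ℝ) (hc : ∀ j a k, 0 ≤ c j a k) (F : (Fin M → Fin M → ℝ) → ℝ)
    (hF : ∀ (v : Fin M → Fin M → ℝ) (j : Fin M) (w : ι → Fin M → Fin M → ℝ),
      (∀ k i, 0 ≤ v k i) → (∀ a k i, i ≠ j → w a k i = v k i) →
      (∀ k, v k j = ∑ a, μ j a * w a k j) → F v ≤ ∑ a, μ j a * F (w a)) :
    F (fun k j => ∑ a, μ j a * c j a k) ≤
      ∑ σ : Fin M → ι, (∏ j, μ j (σ j)) * F (fun k j => c j (σ j) k) := by
  classical
  let net : Finset (Fin M) → (Fin M → ι) → Fin M → Fin M → ℝ :=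
    fun T σ k j => if j ∈ T then ∑ a, μ j a * c j a k else c j (σ j) k
  have hnet : ∀ T σ k i, 0 ≤ net T σ k i := by
    intro T σ k i
    simp only [net]
    split_ifs
    · exact sum_nonneg fun a _ => mul_nonneg (hμ0 i a) (hc i a k)
    · exact hc i _ k
  have key : ∀ T : Finset (Fin M), ∑ σ : Fin M → ι, (∏ j, μ j (σ j)) * F (net T σ) ≤
      ∑ σ : Fin M → ι, (∏ j, μ j (σ j)) * F (net ∅ σ) := by
    intro T
    induction T using Finset.induction_on with
    | empty => exact le_rfl
    | insert j T hj ih =>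
      refine le_trans ?_ ih
      rw [← sum_update μ hμ1 j (fun σ => F (net T σ))]
      refine sum_le_sum fun σ _ => mul_le_mul_of_nonneg_left ?_
        (prod_nonneg fun i _ => hμ0 i (σ i))
      refine hF (net (insert j T) σ) j (fun a => net T (Function.update σ j a))
        (hnet _ σ) ?_ ?_
      · intro a k i hi
        simp only [net, mem_insert, hi, false_or]
        rw [Function.update_of_ne hi]
      · intro k
        simp only [net, mem_insert_self, if_true, hj, if_false, Function.update_self]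
  have h1 := key univ
  have e1 : ∀ σ : Fin M → ι, net univ σ = fun k j => ∑ a, μ j a * c j a k := by
    intro σ
    funext k j
    simp [net]
  have e2 : ∀ σ : Fin M → ι, net ∅ σ = fun k j => c j (σ j) k := by
    intro σ
    funext k j
    simp [net]
  simp_rw [e1, e2] at h1
  rw [← sum_mul, sum_prod_one μ hμ1, one_mul] at h1
  exact h1

end product

theorem level_surv {p : ℝ} (hM : 1 ≤ M) (w : Fin M → Fin M → ℝ) (t : ℝ) :
    level (fun _ => p) w t = 1 - (∑ i, surv (fun _ => p) w t {i}) / M := by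
  have hM' : (M : ℝ) ≠ 0 := by positivity
  have h1 : ∑ i, surv (fun _ => p) w t {i} = M - ∑ Y, law (fun _ => p) w t Y * (Y.card : ℝ) := by
    unfold surv ex
    rw [sum_comm]
    have h2 : ∀ Y : Finset (Fin M), ∑ i, law (fun _ => p) w t Y *
        (if Disjoint Y {i} then (1 : ℝ) else 0) =
        law (fun _ => p) w t Y * M - law (fun _ => p) w t Y * (Y.card : ℝ) := by
      intro Y
      rw [← mul_sum, ← mul_sub]
      congr 1
      have h3 : ∀ i : Fin M, (if Disjoint Y {i} then (1 : ℝ) else 0) =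
          1 - (if i ∈ Y then 1 else 0) := by
        intro i
        by_cases hi : i ∈ Y <;> simp [hi]
      simp_rw [h3]
      rw [sum_sub_distrib]
      simp
    simp_rw [h2]
    rw [sum_sub_distrib, ← sum_mul, law_sum, one_mul]
  rw [h1]
  unfold level
  field_simp
  ring

/-- `E f(t; w) ≤ f(t; E w)` if the columns of the random network `w` are independent -/
theorem level_mean {ι : Type*} [Fintype ι] (hM : 1 ≤ M) {p : ℝ} (hp : 0 ≤ p)
    (μ : Fin M → ι → ℝ) (hμ0 : ∀ j a, 0 ≤ μ j a) (hμ1 : ∀ j, ∑ a, μ j a = 1)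
    (c : Fin M → ι → Fin M → ℝ) (hc : ∀ j a k, 0 ≤ c j a k) {t : ℝ} (ht : 0 ≤ t) :
    ∑ σ : Fin M → ι, (∏ j, μ j (σ j)) * level (fun _ => p) (fun k j => c j (σ j) k) t ≤
      level (fun _ => p) (fun k j => ∑ a, μ j a * c j a k) t := by
  classical
  have h1 : ∀ i, surv (fun _ => p) (fun k j => ∑ a, μ j a * c j a k) t {i} ≤
      ∑ σ : Fin M → ι, (∏ j, μ j (σ j)) * surv (fun _ => p) (fun k j => c j (σ j) k) t {i} := by
    intro i
    refine prod_jensen μ hμ0 hμ1 c hc (fun w => surv (fun _ => p) w t {i}) ?_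
    intro v j w hv hoff hmean
    exact surv_jensen univ (μ j) (fun a _ => hμ0 j a) (hμ1 j) (fun _ => p) (fun _ => hp) w v hv j
      (fun a _ => hoff a) hmean {i} t ht
  have h2 := sum_le_sum fun i (_ : i ∈ (univ : Finset (Fin M))) => h1 i
  rw [sum_comm] at h2
  simp_rw [← mul_sum] at h2
  simp_rw [level_surv hM]
  have h3 : ∑ σ : Fin M → ι, (∏ j, μ j (σ j)) *
      (1 - (∑ i, surv (fun _ => p) (fun k j => c j (σ j) k) t {i}) / M) =
      1 - (∑ σ : Fin M → ι, (∏ j, μ j (σ j)) *
        ∑ i, surv (fun _ => p) (fun k j => c j (σ j) k) t {i}) / M := by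
    simp_rw [mul_sub, mul_one]
    rw [sum_sub_distrib, sum_prod_one μ hμ1, sum_div]
    congr 1
    refine sum_congr rfl fun σ _ => by ring
  rw [h3]
  have hM' : (0 : ℝ) < M := by exact_mod_cast hM
  have h4 := div_le_div_of_nonneg_right h2 hM'.le
  linarith

end Pool.Agent.H30.CV
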