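import Pool.Agent.H30.CV.Prod

/-!
# Random networks with independent columns: strict inequality
-/

set_option autoImplicit false

namespace Pool.Agent.H30.CV

open Pool.Agent.H78.Bass Finset

variable {M : ℕ}

/-- strict Jensen for the exponential -/
theorem exp_jensen_lt {ι : Type*} (R : Finset ι) (om x : ι → ℝ) (hom : ∀ r ∈ R, 0 ≤ om r)
    (hom1 : ∑ r ∈ R, om r = 1) {y : ℝ} (hy : y = ∑ r ∈ R, om r * x r) {r0 : ι} (hr0 : r0 ∈ R)
    (hpos : 0 < om r0) (hne : x r0 ≠ y) :
    Real.exp y < ∑ r ∈ R, om r * Real.exp (x r) := by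
  have h1 : ∀ r, Real.exp (x r) = Real.exp y * Real.exp (x r - y) := by
    intro r
    rw [← Real.exp_add]
    congr 1
    ring
  have h2 : ∑ r ∈ R, om r * (Real.exp y * (x r - y + 1)) = Real.exp y := by
    have : ∑ r ∈ R, om r * (Real.exp y * (x r - y + 1)) =
        Real.exp y * (∑ r ∈ R, om r * x r - y * ∑ r ∈ R, om r + ∑ r ∈ R, om r) := by
      rw [mul_sum, ← sum_sub_distrib, ← sum_add_distrib, mul_sum]
      refine sum_congr rfl fun r _ => by ring
    rw [this, hom1, ← hy]
    ring
  conv_lhs => rw [← h2]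
  refine sum_lt_sum (fun r hr => mul_le_mul_of_nonneg_left ?_ (hom r hr)) ⟨r0, hr0, ?_⟩
  · rw [h1 r]
    exact mul_le_mul_of_nonneg_left (Real.add_one_le_exp _) (Real.exp_pos _).le
  · rw [h1 r0]
    refine mul_lt_mul_of_pos_left (mul_lt_mul_of_pos_left ?_ (Real.exp_pos _)) hpos
    exact Real.add_one_lt_exp (sub_ne_zero.2 hne)

/-- the probability that nobody has adopted depends only on the external rates -/
theorem law_empty_eq (p : Fin M → ℝ) (u v : Fin M → Fin M → ℝ) {s : ℝ} (hs : 0 ≤ s) :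
    law p u s ∅ = law p v s ∅ := by
  have hd : ∀ u : Fin M → Fin M → ℝ, ∀ s, HasDerivAt (fun s => law p u s ∅)
      (-(∑ j, p j) * law p u s ∅) s := by
    intro u s
    refine (law_deriv p u s ∅).congr_deriv ?_
    unfold rate
    simp
  have key : ∀ u v : Fin M → Fin M → ℝ, 0 ≤ law p u s ∅ - law p v s ∅ := by
    intro u v
    refine compare (f := fun s => law p u s ∅ - law p v s ∅) (c := ∑ j, p j)
      (fun s => (hd u s).sub (hd v s)) (fun s _ => ?_) ?_ hs
    · apply le_of_eq
      ring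
    · simp [law_zero]
  have h1 := key u v
  have h2 := key v u
  linarith

/-- the probability that exactly `k` has adopted -/
theorem law_single_lt {ι : Type*} (R : Finset ι) (om : ι → ℝ) (hom : ∀ r ∈ R, 0 ≤ om r)
    (hom1 : ∑ r ∈ R, om r = 1) (p : Fin M → ℝ) (hp : ∀ j, 0 < p j) (w : ι → Fin M → Fin M → ℝ)
    (v : Fin M → Fin M → ℝ) (hv : ∀ k i, 0 ≤ v k i) (j : Fin M)
    (hoff : ∀ r ∈ R, ∀ k i, i ≠ j → w r k i = v k i)
    (hmean : ∀ k, v k j = ∑ r ∈ R, om r * w r k j) {k : Fin M} (hkj : k ≠ j) {r0 : ι}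
    (hr0 : r0 ∈ R) (hpos : 0 < om r0) (hne : w r0 k j ≠ v k j) {T : ℝ} (hT : 0 < T) :
    law p v T {k} < ∑ r ∈ R, om r * law p (w r) T {k} := by
  set th : ℝ := ∑ i ∈ (({k} : Finset (Fin M))ᶜ).erase j, rate p v {k} i + p j with hth
  have hjc : j ∈ ({k} : Finset (Fin M))ᶜ := by
    rw [mem_compl, mem_singleton]
    exact fun h => hkj h.symm
  have hrate : ∀ u : Fin M → Fin M → ℝ, (∀ k i, i ≠ j → u k i = v k i) →
      ∑ i ∈ ({k} : Finset (Fin M))ᶜ, rate p u {k} i = th + u k j := by
    intro u hu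
    rw [← add_sum_erase _ _ hjc, hth]
    have : ∑ i ∈ (({k} : Finset (Fin M))ᶜ).erase j, rate p u {k} i =
        ∑ i ∈ (({k} : Finset (Fin M))ᶜ).erase j, rate p v {k} i := by
      refine sum_congr rfl fun i hi => ?_
      unfold rate
      rw [sum_singleton, sum_singleton, hu k i (ne_of_mem_erase hi)]
    rw [this]
    unfold rate
    rw [sum_singleton]
    ring
  let g : (Fin M → Fin M → ℝ) → ℝ → ℝ := fun u s =>
    Real.exp (-(T - s) * (th + u k j)) * law p u s {k}
  have hg : ∀ u : Fin M → Fin M → ℝ, (∀ k i, i ≠ j → u k i = v k i) → ∀ s,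
      HasDerivAt (g u) (Real.exp (-(T - s) * (th + u k j)) * (p k * law p u s ∅)) s := by
    intro u hu s
    have a : HasDerivAt (fun s : ℝ => -(T - s) * (th + u k j)) (1 * (th + u k j)) s := by
      have b : HasDerivAt (fun s : ℝ => -(T - s)) 1 s := by
        have c := ((hasDerivAt_id s).const_sub T).neg
        have d : HasDerivAt (fun s : ℝ => -(T - s)) (- -1) s := c
        exact d.congr_deriv (by ring)
      exact b.mul_const _
    have h2 := a.exp.mul (law_deriv p u s {k})
    have h3 : HasDerivAt (g u) _ s := h2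
    refine h3.congr_deriv ?_
    rw [hrate u hu, sum_singleton]
    have e : ({k} : Finset (Fin M)).erase k = ∅ := by simp
    rw [e]
    have e2 : rate p u ∅ k = p k := by
      unfold rate
      simp
    rw [e2]
    ring
  let D : ℝ → ℝ := fun s => ∑ r ∈ R, om r * g (w r) s - g v s
  have hD : ∀ s, HasDerivAt D (∑ r ∈ R, om r * (Real.exp (-(T - s) * (th + w r k j)) *
      (p k * law p (w r) s ∅)) - Real.exp (-(T - s) * (th + v k j)) * (p k * law p v s ∅)) s := by
    intro s
    exact (HasDerivAt.fun_sum fun r hr => (hg (w r) (hoff r hr) s).const_mul (om r)).sub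
      (hg v (fun _ _ _ => rfl) s)
  have hmono : StrictMonoOn D (Set.Icc 0 T) := by
    refine strictMonoOn_of_deriv_pos (convex_Icc 0 T)
      (fun s _ => (hD s).continuousAt.continuousWithinAt) ?_
    intro s hs
    rw [interior_Icc] at hs
    rw [(hD s).deriv]
    have e : ∑ r ∈ R, om r * (Real.exp (-(T - s) * (th + w r k j)) *
        (p k * law p (w r) s ∅)) = (p k * law p v s ∅) *
        ∑ r ∈ R, om r * Real.exp (-(T - s) * (th + w r k j)) := by
      rw [mul_sum]
      refine sum_congr rfl fun r _ => ?_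
      rw [law_empty_eq p (w r) v hs.1.le]
      ring
    rw [e]
    have hl : 0 < p k * law p v s ∅ := mul_pos (hp k) (law_pos p v hp hv ∅ hs.1)
    have hTs : 0 < T - s := sub_pos.2 hs.2
    have h1 := exp_jensen_lt R om (fun r => -(T - s) * (th + w r k j)) hom hom1
      (y := -(T - s) * (th + v k j)) (by
        have : ∑ r ∈ R, om r * (-(T - s) * (th + w r k j)) =
            -(T - s) * (th * ∑ r ∈ R, om r + ∑ r ∈ R, om r * w r k j) := by
          rw [mul_sum, ← sum_add_distrib, mul_sum]
          refine sum_congr rfl fun r _ => by ring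
        rw [this, hom1, ← hmean]
        ring) hr0 hpos (by
        intro h
        apply hne
        have h2 := mul_left_cancel₀ (neg_ne_zero.2 hTs.ne') h
        linarith)
    have h3 := mul_lt_mul_of_pos_left h1 hl
    linarith
  have h0 : D 0 = 0 := by
    have e : ∀ u : Fin M → Fin M → ℝ, g u 0 = 0 := by
      intro u
      simp [g, law_zero]
    simp [D, e]
  have h1 := hmono (Set.left_mem_Icc.2 hT.le) (Set.right_mem_Icc.2 hT.le) hT
  rw [h0] at h1
  have e : ∀ u : Fin M → Fin M → ℝ, g u T = law p u T {k} := by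
    intro u
    simp [g]
  simp only [D, e] at h1
  linarith

/-- strict convexity of the survival function of `j` in the column `j` -/
theorem surv_jensen_lt {ι : Type*} (R : Finset ι) (om : ι → ℝ) (hom : ∀ r ∈ R, 0 ≤ om r)
    (hom1 : ∑ r ∈ R, om r = 1) (p : Fin M → ℝ) (hp : ∀ j, 0 < p j) (w : ι → Fin M → Fin M → ℝ)
    (v : Fin M → Fin M → ℝ) (hv : ∀ k i, 0 ≤ v k i) (j : Fin M)
    (hoff : ∀ r ∈ R, ∀ k i, i ≠ j → w r k i = v k i)
    (hmean : ∀ k, v k j = ∑ r ∈ R, om r * w r k j) {k : Fin M} (hkj : k ≠ j) {r0 : ι}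
    (hr0 : r0 ∈ R) (hpos : 0 < om r0) (hne : w r0 k j ≠ v k j) {t : ℝ} (ht : 0 < t) :
    surv p v t {j} < ∑ r ∈ R, om r * surv p (w r) t {j} := by
  unfold surv ex
  simp_rw [mul_sum]
  rw [sum_comm]
  refine sum_lt_sum (fun Y _ => ?_) ⟨{k}, mem_univ _, ?_⟩
  · by_cases hY : j ∈ Y
    · simp [hY]
    · have h1 := law_jensen R om hom hom1 p (fun j => (hp j).le) w v hv j hoff hmean Y hY
        (fun _ => 0) t ht.le
      simp only [zero_mul, sum_const_zero, neg_zero, Real.exp_zero, one_mul] at h1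
      simpa [hY] using h1
  · have h1 := law_single_lt R om hom hom1 p hp w v hv j hoff hmean hkj hr0 hpos hne ht
    simpa [hkj] using h1

/-- `E f(t; w) < f(t; E w)` if a column with positive probability differs from its mean -/
theorem level_mean_lt {ι : Type*} [Fintype ι] (hM : 1 ≤ M) {p : ℝ} (hp : 0 < p)
    (μ : Fin M → ι → ℝ) (hμ0 : ∀ j a, 0 ≤ μ j a) (hμ1 : ∀ j, ∑ a, μ j a = 1)
    (c : Fin M → ι → Fin M → ℝ) (hc : ∀ j a k, 0 ≤ c j a k) {j k : Fin M} {a0 : ι}
    (ha0 : 0 < μ j a0) (hkj : k ≠ j) (hne : c j a0 k ≠ ∑ a, μ j a * c j a k) {t : ℝ}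
    (ht : 0 < t) :
    ∑ σ : Fin M → ι, (∏ j, μ j (σ j)) * level (fun _ => p) (fun k j => c j (σ j) k) t <
      level (fun _ => p) (fun k j => ∑ a, μ j a * c j a k) t := by
  classical
  have hF : ∀ (i : Fin M) (v : Fin M → Fin M → ℝ) (j : Fin M) (w : ι → Fin M → Fin M → ℝ),
      (∀ k i, 0 ≤ v k i) → (∀ a k i, i ≠ j → w a k i = v k i) →
      (∀ k, v k j = ∑ a, μ j a * w a k j) →
      surv (fun _ => p) v t {i} ≤ ∑ a, μ j a * surv (fun _ => p) (w a) t {i} := by
    intro i v j w hv hoff hmean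
    exact surv_jensen univ (μ j) (fun a _ => hμ0 j a) (hμ1 j) (fun _ => p) (fun _ => hp.le) w v hv
      j (fun a _ => hoff a) hmean {i} t ht.le
  have h1 : ∀ i, surv (fun _ => p) (fun k j => ∑ a, μ j a * c j a k) t {i} ≤
      ∑ σ : Fin M → ι, (∏ j, μ j (σ j)) * surv (fun _ => p) (fun k j => c j (σ j) k) t {i} := by
    intro i
    exact prod_jensen μ hμ0 hμ1 c hc (fun w => surv (fun _ => p) w t {i}) (hF i)
  have h1s : surv (fun _ => p) (fun k j => ∑ a, μ j a * c j a k) t {j} <
      ∑ σ : Fin M → ι, (∏ j, μ j (σ j)) * surv (fun _ => p) (fun k j => c j (σ j) k) t {j} := by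
    -- the mean network with the column `j` replaced
    have s1 := surv_jensen_lt univ (μ j) (fun a _ => hμ0 j a) (hμ1 j) (fun _ => p) (fun _ => hp)
      (fun b k i => if i = j then c j b k else ∑ a, μ i a * c i a k)
      (fun k i => ∑ a, μ i a * c i a k)
      (fun k i => sum_nonneg fun a _ => mul_nonneg (hμ0 i a) (hc i a k)) j
      (fun b _ k i hi => by simp [hi]) (fun k => by simp) hkj (mem_univ a0) ha0
      (by simpa using hne) ht
    have s2 : ∀ b, surv (fun _ => p)
        (fun k i => if i = j then c j b k else ∑ a, μ i a * c i a k) t {j} ≤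
        ∑ σ : Fin M → ι, (∏ i, μ i (σ i)) *
          surv (fun _ => p) (fun k i => c i (Function.update σ j b i) k) t {j} := by
      intro b
      have h := prod_jensen μ hμ0 hμ1 (fun i a => if i = j then c j b else c i a)
        (fun i a k => by
          split_ifs
          · exact hc j b k
          · exact hc i a k) (fun w => surv (fun _ => p) w t {j}) (hF j)
      have e1 : (fun k i => ∑ a, μ i a * (if i = j then c j b else c i a) k) =
          (fun k i => if i = j then c j b k else ∑ a, μ i a * c i a k : Fin M → Fin M → ℝ) := by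
        funext k i
        by_cases hi : i = j
        · simp only [hi, if_true]
          rw [← sum_mul, hμ1, one_mul]
        · simp [hi]
      have e2 : ∀ σ : Fin M → ι, (fun k i => (if i = j then c j b else c i (σ i)) k) =
          (fun k i => c i (Function.update σ j b i) k : Fin M → Fin M → ℝ) := by
        intro σ
        funext k i
        by_cases hi : i = j
        · subst hi
          simp
        · simp [hi]
      simp only [e1, e2] at h
      exact h
    refine s1.trans_le ?_
    rw [← sum_update μ hμ1 j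
      (fun σ => surv (fun _ => p) (fun k i => c i (σ i) k) t {j})]
    simp_rw [mul_sum]
    rw [sum_comm]
    refine sum_le_sum fun b _ => ?_
    refine (mul_le_mul_of_nonneg_left (s2 b) (hμ0 j b)).trans (le_of_eq ?_)
    rw [mul_sum]
    refine sum_congr rfl fun σ _ => by ring
  have h2 : ∑ i, surv (fun _ => p) (fun k j => ∑ a, μ j a * c j a k) t {i} <
      ∑ i, ∑ σ : Fin M → ι, (∏ j, μ j (σ j)) *
        surv (fun _ => p) (fun k j => c j (σ j) k) t {i} :=
    sum_lt_sum (fun i _ => h1 i) ⟨j, mem_univ j, h1s⟩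
  rw [sum_comm] at h2
  simp_rw [← mul_sum] at h2
  simp_rw [level_surv hM]
  have h3 : ∑ σ : Fin M → ι, (∏ j, μ j (σ j)) *
      (1 - (∑ i, surv (fun _ => p) (fun k j => c j (σ j) k) t {i}) / M) =
      1 - (∑ σ : Fin M → ι, (∏ j, μ j (σ j)) *
        ∑ i, surv (fun _ => p) (fun k j => c j (σ j) k) t {i}) / M := by
    simp_rw [mul_sub, mul_one]
    rw [sum_sub_distrib, sum_prod_one μ hμ1, sum_div]
    congr 1
    refine sum_congr rfl fun σ _ => by ring
  rw [h3]
  have hM' : (0 : ℝ) < M := by exact_mod_cast hM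
  have h4 := div_lt_div_of_pos_right h2 hM'
  linarith

end Pool.Agent.H30.CV
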