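import Pool.Agent.H78.Bass.Main

/-!
# Survival functions of the Bass model are convex in each column: module Surv
-/

set_option autoImplicit false

namespace Pool.Agent.H30.CV

open Pool.Agent.H78.Bass Finset

variable {M : ℕ}

/-- probability that no node of `Z` has adopted at time `t` -/
noncomputable def surv (p : Fin M → ℝ) (w : Fin M → Fin M → ℝ) (t : ℝ) (Z : Finset (Fin M)) : ℝ :=
  ex p w (fun Y => if Disjoint Y Z then 1 else 0) t

theorem genF_surv (p : Fin M → ℝ) (w : Fin M → Fin M → ℝ) (Z X : Finset (Fin M)) :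
    genF p w (fun Y => if Disjoint Y Z then (1 : ℝ) else 0) X =
      ∑ k ∈ Zᶜ, (∑ i ∈ Z, w k i) * (if Disjoint X (insert k Z) then (1 : ℝ) else 0) -
      (∑ j ∈ Z, p j + ∑ k ∈ Zᶜ, ∑ i ∈ Z, w k i) * (if Disjoint X Z then (1 : ℝ) else 0) := by
  unfold genF
  by_cases h : Disjoint X Z
  · have h1 : ∀ j, (if Disjoint (insert j X) Z then (1 : ℝ) else 0) = if j ∈ Z then 0 else 1 := by
      intro j
      by_cases hj : j ∈ Z <;> simp [Finset.disjoint_insert_left, hj, h]
    have h2 : ∀ k, (if Disjoint X (insert k Z) then (1 : ℝ) else 0) = if k ∈ X then 0 else 1 := by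
      intro k
      by_cases hk : k ∈ X <;> simp [Finset.disjoint_insert_right, hk, h]
    simp_rw [h1, h2]
    rw [if_pos h, mul_one]
    have h3 : ∑ j ∈ Xᶜ, rate p w X j * ((if j ∈ Z then (0 : ℝ) else 1) - 1) =
        - ∑ j ∈ Z, rate p w X j := by
      have e : ∀ j ∈ Xᶜ, rate p w X j * ((if j ∈ Z then (0 : ℝ) else 1) - 1) =
          - (if j ∈ Z then rate p w X j else 0) := by
        intro j _
        split_ifs <;> ring
      rw [sum_congr rfl e, sum_neg_distrib, sum_ite_mem]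
      congr 2
      apply inter_eq_right.2
      intro j hj
      rw [mem_compl]
      exact fun hx => disjoint_left.1 h hx hj
    have h4 : ∑ k ∈ Zᶜ, (∑ i ∈ Z, w k i) * (if k ∈ X then (0 : ℝ) else 1) =
        ∑ k ∈ Zᶜ, ∑ i ∈ Z, w k i - ∑ k ∈ X, ∑ i ∈ Z, w k i := by
      have e : ∀ k ∈ Zᶜ, (∑ i ∈ Z, w k i) * (if k ∈ X then (0 : ℝ) else 1) =
          ∑ i ∈ Z, w k i - (if k ∈ X then ∑ i ∈ Z, w k i else 0) := by
        intro k _
        split_ifs <;> ring
      rw [sum_congr rfl e, sum_sub_distrib, sum_ite_mem]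
      congr 2
      apply inter_eq_right.2
      intro k hk
      rw [mem_compl]
      exact fun hz => disjoint_left.1 h hk hz
    rw [h3, h4]
    unfold rate
    rw [sum_add_distrib, sum_comm (s := Z) (t := X)]
    ring
  · have h1 : ∀ j, ¬ Disjoint (insert j X) Z := by
      intro j hj
      exact h (disjoint_of_subset_left (subset_insert j X) hj)
    have h2 : ∀ k, ¬ Disjoint X (insert k Z) := by
      intro k hk
      exact h (disjoint_of_subset_right (subset_insert k Z) hk)
    simp [h, h1, h2]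

theorem surv_deriv (p : Fin M → ℝ) (w : Fin M → Fin M → ℝ) (t : ℝ) (Z : Finset (Fin M)) :
    HasDerivAt (fun s => surv p w s Z)
      (∑ k ∈ Zᶜ, (∑ i ∈ Z, w k i) * surv p w t (insert k Z) -
        (∑ j ∈ Z, p j + ∑ k ∈ Zᶜ, ∑ i ∈ Z, w k i) * surv p w t Z) t := by
  have h := ex_hasDeriv p w (fun Y => if Disjoint Y Z then (1 : ℝ) else 0) t
  have e : ex p w (genF p w (fun Y => if Disjoint Y Z then (1 : ℝ) else 0)) t =
      ∑ k ∈ Zᶜ, (∑ i ∈ Z, w k i) * surv p w t (insert k Z) -
        (∑ j ∈ Z, p j + ∑ k ∈ Zᶜ, ∑ i ∈ Z, w k i) * surv p w t Z := by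
    unfold surv ex
    simp_rw [genF_surv, mul_sub, mul_sum]
    rw [sum_sub_distrib, sum_comm]
    congr 1
    · refine sum_congr rfl fun k _ => sum_congr rfl fun Y _ => by ring
    · refine sum_congr rfl fun Y _ => by ring
  rw [← e]
  exact h

theorem surv_zero (p : Fin M → ℝ) (w : Fin M → Fin M → ℝ) (Z : Finset (Fin M)) :
    surv p w 0 Z = 1 := by
  unfold surv
  rw [ex_zero]
  simp

/-- (B): from the sets which contain `j` to all sets -/
theorem surv_jensen_of {ι : Type*} (R : Finset ι) (om : ι → ℝ)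
    (hom1 : ∑ r ∈ R, om r = 1) (p : Fin M → ℝ) (w : ι → Fin M → Fin M → ℝ)
    (v : Fin M → Fin M → ℝ) (hv : ∀ k i, 0 ≤ v k i) (j : Fin M)
    (hoff : ∀ r ∈ R, ∀ k i, i ≠ j → w r k i = v k i)
    (hA : ∀ Z, j ∈ Z → ∀ t, 0 ≤ t → surv p v t Z ≤ ∑ r ∈ R, om r * surv p (w r) t Z) :
    ∀ Z, ∀ t, 0 ≤ t → surv p v t Z ≤ ∑ r ∈ R, om r * surv p (w r) t Z := by
  have key : ∀ n : ℕ, ∀ Z : Finset (Fin M), (Zᶜ).card = n → ∀ t, 0 ≤ t →
      surv p v t Z ≤ ∑ r ∈ R, om r * surv p (w r) t Z := by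
    intro n
    induction n using Nat.strong_induction_on with
    | _ n ih =>
      intro Z hZ t ht
      by_cases hj : j ∈ Z
      · exact hA Z hj t ht
      · have hD : ∀ s, HasDerivAt (fun s => ∑ r ∈ R, om r * surv p (w r) s Z - surv p v s Z)
            (∑ r ∈ R, om r * (∑ k ∈ Zᶜ, (∑ i ∈ Z, w r k i) * surv p (w r) s (insert k Z) -
              (∑ j ∈ Z, p j + ∑ k ∈ Zᶜ, ∑ i ∈ Z, w r k i) * surv p (w r) s Z) -
              (∑ k ∈ Zᶜ, (∑ i ∈ Z, v k i) * surv p v s (insert k Z) -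
              (∑ j ∈ Z, p j + ∑ k ∈ Zᶜ, ∑ i ∈ Z, v k i) * surv p v s Z)) s := by
          intro s
          exact (HasDerivAt.fun_sum fun r _ => (surv_deriv p (w r) s Z).const_mul (om r)).sub
            (surv_deriv p v s Z)
        have hW : ∀ r ∈ R, ∀ k, ∑ i ∈ Z, w r k i = ∑ i ∈ Z, v k i := by
          intro r hr k
          refine sum_congr rfl fun i hi => hoff r hr k i ?_
          rintro rfl
          exact hj hi
        have h0 := compare (c := ∑ j ∈ Z, p j + ∑ k ∈ Zᶜ, ∑ i ∈ Z, v k i) hD ?_ ?_ ht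
        · linarith
        · intro s hs
          have e : ∑ r ∈ R, om r * (∑ k ∈ Zᶜ, (∑ i ∈ Z, w r k i) * surv p (w r) s (insert k Z) -
              (∑ j ∈ Z, p j + ∑ k ∈ Zᶜ, ∑ i ∈ Z, w r k i) * surv p (w r) s Z) =
              ∑ k ∈ Zᶜ, (∑ i ∈ Z, v k i) * (∑ r ∈ R, om r * surv p (w r) s (insert k Z)) -
              (∑ j ∈ Z, p j + ∑ k ∈ Zᶜ, ∑ i ∈ Z, v k i) * ∑ r ∈ R, om r * surv p (w r) s Z := by
            have e1 : ∀ r ∈ R, om r * (∑ k ∈ Zᶜ, (∑ i ∈ Z, w r k i) * surv p (w r) s (insert k Z) -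
              (∑ j ∈ Z, p j + ∑ k ∈ Zᶜ, ∑ i ∈ Z, w r k i) * surv p (w r) s Z) =
              ∑ k ∈ Zᶜ, (∑ i ∈ Z, v k i) * (om r * surv p (w r) s (insert k Z)) -
              (∑ j ∈ Z, p j + ∑ k ∈ Zᶜ, ∑ i ∈ Z, v k i) * (om r * surv p (w r) s Z) := by
              intro r hr
              simp_rw [hW r hr]
              rw [mul_sub, mul_sum]
              congr 1
              · refine sum_congr rfl fun k _ => by ring
              · ring
            rw [sum_congr rfl e1, sum_sub_distrib, sum_comm, mul_sum]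
            congr 1
            refine sum_congr rfl fun k _ => by rw [mul_sum]
          rw [e]
          have h5 : ∑ k ∈ Zᶜ, (∑ i ∈ Z, v k i) * surv p v s (insert k Z) ≤
              ∑ k ∈ Zᶜ, (∑ i ∈ Z, v k i) * (∑ r ∈ R, om r * surv p (w r) s (insert k Z)) := by
            refine sum_le_sum fun k hk => mul_le_mul_of_nonneg_left ?_
              (sum_nonneg fun i _ => hv k i)
            refine ih ((insert k Z)ᶜ).card ?_ _ rfl s hs
            rw [← hZ]
            apply card_lt_card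
            rw [mem_compl] at hk
            refine ⟨compl_subset_compl.2 (subset_insert k Z), fun h => ?_⟩
            have := h (mem_compl.2 hk)
            simp at this
          linarith
        · simp_rw [surv_zero, mul_one]
          rw [hom1]
          norm_num
  intro Z
  exact key _ Z rfl

end Pool.Agent.H30.CV
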